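import Pool.Agent.H94.PX2.M64
import Pool.Agent.H94.PX2.M66

/-!
# HE Lim: limits of curves on lines

Adapted from `PX/Lim`.
-/

set_option autoImplicit false

open Topology Filter Metric

namespace Pool.Agent.HE

open Pool.Agent.H36.BP (EN fs wd)
open Pool.Agent.H62.EF (MN pr)
open Pool.Agent.AD (Vd)
open Pool.Agent.TG (Lat Gd)
open Pool.Agent.G3 (wt LLift)

variable {N k q r : ℕ} {Λ : AddSubgroup (Vd (k + 1))} {D : Set (Vd (k + 1))} {X : Set (Vd (k + 1) × EN N)} {F : Fin q → Vd (k + 1) × EN N → ℂ} {d : Fin q → ℕ}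
  {W : Fin q → Fin r → Vd (k + 1) →L[ℂ] ℂ}

theorem HD.exists_ls (P : HD Λ D X F d W) {y a : Vd (k + 1)} (ha : a ≠ 0) (𝒰 : Ultrafilter ℕ) {w : ℕ → ℂ → EN N} {h : ℕ → ℂ → Vd (k + 1)}
    (hcv : ∀ R : ℝ, ∀ᶠ n in (𝒰 : Filter ℕ), Cw X F (ball 0 R) (w n) (h n))
    (hh : ∀ R ε : ℝ, 0 < ε → ∀ᶠ n in (𝒰 : Filter ℕ), ∀ z ∈ closedBall (0 : ℂ) R, ‖h n z - (y + z • a)‖ < ε) : ∃ g : ℂ → MN N, LS X F D y a 𝒰 w h g := by
  classical
  have hHc : Continuous fun z : ℂ => y + z • a := by fun_prop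
  have hUo : IsOpen {z : ℂ | y + z • a ∉ D} := P.D_closed.isOpen_compl.preimage hHc
  -- curves on large discs
  have hcurve : ∀ r : ℝ, ∀ᶠ n in (𝒰 : Filter ℕ), Cw X F (ball 0 (r + 1)) (w n) (h n) ∧ closedBall (0 : ℂ) r ⊆ ball 0 (r + 1) := by
    intro r
    filter_upwards [hcv (r + 1)] with n h1
    exact ⟨h1, closedBall_subset_ball (by linarith)⟩
  -- derivatives
  have hbound : ∀ r : ℝ, ∀ᶠ n in (𝒰 : Filter ℕ), ∀ z ∈ closedBall (0 : ℂ) r, ‖deriv (h n) z‖ ≤ 1 + ‖a‖ := by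
    intro r
    filter_upwards [hcurve (r + 1), hh (r + 1) 1 one_pos] with n h1 h2 z hz
    exact Lim_deriv isOpen_ball h1.2 h1.1.h_diff h2 hz
  -- points off `D`
  have hoff : ∀ z : ℂ, y + z • a ∉ D → ∃ δ s : ℝ, 0 < δ ∧ 0 < s ∧ ∀ᶠ n in (𝒰 : Filter ℕ), ∀ v ∈ ball z s, h n v ∈ Gd D δ := by
    intro z hz
    obtain ⟨δ, hδ, hδm⟩ := Lim_gd P.D_closed hz
    obtain ⟨s, hs, hsb⟩ := Metric.continuousAt_iff.mp (hHc.continuousAt (x := z)) (δ / 4) (by positivity)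
    refine ⟨δ / 2, s, by positivity, hs, ?_⟩
    filter_upwards [hh (‖z‖ + s) (δ / 4) (by positivity)] with n hn v hv
    have hv1 : dist v z < s := mem_ball.mp hv
    have hv0 : v ∈ closedBall (0 : ℂ) (‖z‖ + s) := by
      rw [mem_closedBall, dist_zero_right]
      have := norm_le_norm_add_norm_sub' v z
      rw [← dist_eq_norm] at this
      linarith
    have h1 := hn v hv0
    have h2 : ‖(y + v • a) - (y + z • a)‖ < δ / 4 := by
      rw [← dist_eq_norm]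
      exact hsb hv1
    have h3 : ‖h n v - (y + z • a)‖ ≤ δ / 2 := by
      have h4 := norm_sub_le_norm_sub_add_norm_sub (h n v) (y + v • a) (y + z • a)
      linarith
    have h5 := Pool.Agent.TG.gd_near hδm h3
    have h6 : δ - δ / 2 = δ / 2 := by ring
    rwa [h6] at h5
  -- equicontinuity
  have heq : ∀ z : ℂ, y + z • a ∉ D → ∃ L s : ℝ, 0 < L ∧ 0 < s ∧ ∀ᶠ n in (𝒰 : Filter ℕ), DifferentiableOn ℂ (w n) (ball z s) ∧
      (∀ v ∈ ball z s, w n v ≠ 0) ∧ ∀ v ∈ ball z s, dist (pr (w n v)) (pr (w n z)) ≤ L * ‖v - z‖ := by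
    intro z hz
    obtain ⟨δ, s, hδ, hs, hev⟩ := hoff z hz
    obtain ⟨L, hL, hLip⟩ := P.lip (H := 1 + ‖a‖) hδ (by positivity) one_pos
    refine ⟨2 * L, s, by positivity, hs, ?_⟩
    filter_upwards [hev, hbound (‖z‖ + s + 1), hcurve (‖z‖ + s + 1)] with n h1 h2 h3
    have hsub : ∀ v ∈ ball z s, ball v 1 ⊆ closedBall (0 : ℂ) (‖z‖ + s + 1) := by
      intro v hv x hx
      rw [mem_closedBall, dist_zero_right]
      have hv1 : dist v z < s := mem_ball.mp hv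
      have hx1 : dist x v < 1 := mem_ball.mp hx
      have h4 : ‖x‖ ≤ dist x v + dist v z + ‖z‖ := by
        have h5 := dist_triangle4 x v z 0
        rwa [dist_zero_right, dist_zero_right] at h5
      linarith
    have hballs : ball z s ⊆ ball (0 : ℂ) (‖z‖ + s + 1 + 1) := fun v hv => h3.2 (hsub v hv (mem_ball_self one_pos))
    have hne : ∀ v ∈ ball z s, w n v ≠ 0 := fun v hv => h3.1.w_ne _ (hballs hv)
    refine ⟨h3.1.w_diff.mono hballs, hne, fun v hv => ?_⟩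
    refine Pool.Agent.H62.EF.pr_lipschitz isOpen_ball (convex_ball z s) (h3.1.w_diff.mono hballs) hne (L := L) (fun x hx => ?_) v hv z (mem_ball_self hs)
    exact hLip (w n) (h n) x (h3.1.mono ((hsub x hx).trans h3.2)) (fun q hq => h2 q (hsub x hx hq)) (h1 x hx)
  -- the limit
  obtain ⟨g, hgl, hgc⟩ := Pool.Agent.G3.ult 𝒰 hUo w (fun z hz => by
      obtain ⟨L, s, -, hs, hev⟩ := heq z hz
      exact ⟨s, hs, hev.mono fun n hn => ⟨hn.1, hn.2.1⟩⟩) (fun z hz ε hε => by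
      obtain ⟨L, s, hL, hs, hev⟩ := heq z hz
      refine ⟨min s (ε / L), lt_min hs (by positivity), hev.mono fun n hn v hv => ?_⟩
      have hv1 : dist v z < min s (ε / L) := mem_ball.mp hv
      refine (hn.2.2 v (mem_ball.mpr (lt_of_lt_of_le hv1 (min_le_left _ _)))).trans ?_
      have hv2 : ‖v - z‖ ≤ ε / L := by
        rw [← dist_eq_norm]
        exact (lt_of_lt_of_le hv1 (min_le_right _ _)).le
      calc L * ‖v - z‖ ≤ L * (ε / L) := mul_le_mul_of_nonneg_left hv2 hL.le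
        _ = ε := by field_simp)
  exact ⟨g, hcv, hh, fun z hz => hgl z hz, fun K hK hKD ε hε => hgc K (fun z hz => hKD z hz) hK ε hε⟩

end Pool.Agent.HE
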